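import Pool.Agent.Y18.LC.Stm3

/-!
Project LC (helper18), job LC-PRD: an automorphism whose powers act transitively on the embeddings
of a field of prime degree.
-/

set_option autoImplicit false

namespace Pool.Agent.Y419.LC

open Module NumberField

/-- the algebraic closure of the rational numbers -/
abbrev Om : Type := AlgebraicClosure ℚ

theorem isAlg (a : Algebra ℚ Om) : @Algebra.IsAlgebraic ℚ Om _ _ a := by
  have e : a = AlgebraicClosure.instAlgebra ℚ := Subsingleton.elim _ _
  rw [e]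
  exact AlgebraicClosure.isAlgebraic ℚ

theorem algClosure_of {k : Type} [Field k] [NumberField k] (τ : k →+* Om) :
    @IsAlgClosure k Om _ _ τ.toAlgebra inferInstance := by
  let _ : Algebra k Om := τ.toAlgebra
  have h1 : IsScalarTower ℚ k Om := IsScalarTower.of_algebraMap_eq' (Subsingleton.elim _ _)
  have h3 : Algebra.IsAlgebraic ℚ Om := isAlg _
  have h2 : Algebra.IsAlgebraic k Om := Algebra.IsAlgebraic.tower_top (K := ℚ) k
  exact ⟨inferInstance, h2⟩

theorem torsFree_of {k : Type} [Field k] (τ : k →+* Om) :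
    @Module.IsTorsionFree k Om _ _ τ.toAlgebra.toModule := by
  let _ : Algebra k Om := τ.toAlgebra
  infer_instance

theorem ext_emb {k : Type} [Field k] [NumberField k] (τ τ' : k →+* Om) :
    ∃ g : Om ≃+* Om, ∀ x : k, g (τ x) = τ' x := by
  obtain ⟨e⟩ : Nonempty (@AlgEquiv k Om Om _ _ _ τ.toAlgebra τ'.toAlgebra) :=
    ⟨@IsAlgClosure.equiv k _ _ Om Om _ _ τ'.toAlgebra (torsFree_of τ') (algClosure_of τ')
      τ.toAlgebra (torsFree_of τ) (algClosure_of τ)⟩
  exact ⟨@AlgEquiv.toRingEquiv k Om Om _ _ _ τ.toAlgebra τ'.toAlgebra e, fun x =>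
    @AlgEquiv.commutes k Om Om _ _ _ τ.toAlgebra τ'.toAlgebra e x⟩

/-- the automorphisms act on the embeddings -/
noncomputable def act (k : Type) [Field k] : (Om ≃+* Om) →* Equiv.Perm (k →+* Om) where
  toFun g :=
    { toFun := fun τ => (g : Om →+* Om).comp τ
      invFun := fun τ => (g.symm : Om →+* Om).comp τ
      left_inv := fun τ => by ext x; simp
      right_inv := fun τ => by ext x; simp }
  map_one' := by ext τ x; rfl
  map_mul' g h := by ext τ x; rfl

theorem act_apply {k : Type} [Field k] (g : Om ≃+* Om) (τ : k →+* Om) (x : k) :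
    act k g τ x = g (τ x) := rfl

theorem act_pow {k : Type} [Field k] (g : Om ≃+* Om) (j : ℕ) (τ : k →+* Om) (x : k) :
    (act k g ^ j) τ x = (⇑g)^[j] (τ x) := by
  induction j with
  | zero => rfl
  | succ j ih =>
    rw [pow_succ', Equiv.Perm.mul_apply, act_apply, ih, Function.iterate_succ_apply']

/-- LC-PRD -/
theorem prd : Pool.Agent.Y18.LC.PRD := by
  intro k _ _ hn
  classical
  have hcard : Fintype.card (k →+* Om) = finrank ℚ k := NumberField.Embeddings.card k Om
  have hp : (Fintype.card (k →+* Om)).Prime := by rw [hcard]; exact hn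
  have : Fact (Fintype.card (k →+* Om)).Prime := ⟨hp⟩
  obtain ⟨τ₀⟩ : Nonempty (k →+* Om) := Fintype.card_pos_iff.1 hp.pos
  have horb : MulAction.orbit (act k).range τ₀ = Set.univ := by
    ext τ
    simp only [Set.mem_univ, iff_true]
    obtain ⟨g, hg⟩ := ext_emb τ₀ τ
    exact ⟨⟨act k g, ⟨g, rfl⟩⟩, RingHom.ext hg⟩
  have hdvd : Fintype.card (k →+* Om) ∣ Nat.card (act k).range := by
    have h1 := MulAction.index_stabilizer (act k).range τ₀
    rw [horb, Set.ncard_univ, Nat.card_eq_fintype_card] at h1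
    rw [← h1]
    exact Subgroup.index_dvd_card _
  obtain ⟨r, hr⟩ := exists_prime_orderOf_dvd_card' (Fintype.card (k →+* Om)) hdvd
  have hr' : orderOf (r : Equiv.Perm (k →+* Om)) = Fintype.card (k →+* Om) := by
    rw [Subgroup.orderOf_coe, hr]
  have hcyc := Equiv.Perm.isCycle_of_prime_order'' hp hr'
  have hsup : (r : Equiv.Perm (k →+* Om)).support = Finset.univ := by
    rw [← Finset.card_eq_iff_eq_univ, ← hcyc.orderOf, hr']
  obtain ⟨g, hg⟩ := r.2
  refine ⟨g, fun τ τ' => ?_⟩
  have h1 : ∀ τ : k →+* Om, (r : Equiv.Perm (k →+* Om)) τ ≠ τ := fun τ =>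
    Equiv.Perm.mem_support.1 (hsup ▸ Finset.mem_univ τ)
  obtain ⟨j, hj⟩ := hcyc.exists_pow_eq (h1 τ) (h1 τ')
  refine ⟨j, fun x => ?_⟩
  rw [← act_pow, hg, hj]

end Pool.Agent.Y419.LC
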