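import Mathlib
import Pool.Agent.Y18.LC.Stm4
import Pool.Agent.W289.SL.Crit
import Pool.Agent.W289.SL.Emb
import Pool.Agent.W289.SL.LogEx

/-!
# Project LC (helper18), job LC-LCP: Leopoldt implies the injectivity of the logarithms
-/

set_option autoImplicit false
set_option linter.unusedSectionVars false

namespace Pool.Agent.Y419.LC.LcpP

open NumberField Module TensorProduct Pool.Agent.W289.SL Filter Topology

variable {p : ℕ} [hp : Fact p.Prime]

/-- torsion dies in `ℂ_p ⊗ -` -/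
lemma tmul_torsion {H : Type} [Field H] [NumberField H] (a : ℂ_[p]) (t : Additive (𝓞 H)ˣ) (n : ℕ)
    (hn : n ≠ 0) (ht : n • t = 0) : (a ⊗ₜ[ℤ] t : UM p H) = 0 := by
  have hn' : (n : ℂ_[p]) ≠ 0 := by exact_mod_cast hn
  have h1 : (a ⊗ₜ[ℤ] t : UM p H) = (n • (a / n)) ⊗ₜ[ℤ] t := by
    congr 1
    rw [nsmul_eq_mul]
    field_simp
  rw [h1, TensorProduct.smul_tmul, ht, TensorProduct.tmul_zero]

lemma tmul_zsmul {H : Type} [Field H] [NumberField H] (c : ℂ_[p]) (k : ℤ)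
    (w : Additive (𝓞 H)ˣ) : (c ⊗ₜ[ℤ] (k • w) : UM p H) = (c * (k : ℂ_[p])) ⊗ₜ[ℤ] w := by
  have h5 := map_zsmul (TensorProduct.mk ℤ ℂ_[p] (Additive (𝓞 H)ˣ) c) k w
  have h6 : (c ⊗ₜ[ℤ] (k • w) : UM p H) = k • (c ⊗ₜ[ℤ] w : UM p H) := h5
  rw [h6, ← Int.cast_smul_eq_zsmul ℂ_[p], TensorProduct.smul_tmul', smul_eq_mul, mul_comm]

section coord

variable {E : Type} [Field E] [NumberField E]

/-- the index set of the integral basis -/
abbrev J (E : Type) [Field E] [NumberField E] : Type := Free.ChooseBasisIndex ℤ (𝓞 E)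

/-- the integral basis -/
noncomputable abbrev om (E : Type) [Field E] [NumberField E] : Basis (J E) ℤ (𝓞 E) :=
  RingOfIntegers.basis E

/-- coordinates and embeddings -/
lemma emb_coord (σ : E →+* ℂ_[p]) (y : 𝓞 E) :
    σ (y : E) = ∑ j, (((om E).repr y j : ℤ) : ℂ_[p]) * σ ((om E j : 𝓞 E) : E) := by
  set τ : 𝓞 E →+* ℂ_[p] := σ.comp (algebraMap (𝓞 E) E) with hτ
  have h1 : τ y = ∑ j, (((om E).repr y j : ℤ) : ℂ_[p]) * τ (om E j) := by
    conv_lhs => rw [← (om E).sum_repr y]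
    rw [map_sum]
    refine Finset.sum_congr rfl fun j _ => ?_
    rw [zsmul_eq_mul, map_mul, map_intCast]
  exact h1

/-- the inverse of the matrix of the embeddings -/
lemma exists_inv : ∃ N : (E →+* ℂ_[p]) → J E → ℂ_[p], ∀ (t : J E → ℂ_[p]) (j : J E),
    t j = ∑ σ : E →+* ℂ_[p], (∑ i, t i * σ ((om E i : 𝓞 E) : E)) * N σ j := by
  classical
  set b := integralBasis E with hb
  have hcard : Fintype.card (J E) = Fintype.card (E →ₐ[ℚ] ℂ_[p]) := by
    rw [AlgHom.card ℚ E ℂ_[p]]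
    exact (Module.finrank_eq_card_basis b).symm
  let e : J E ≃ (E →ₐ[ℚ] ℂ_[p]) := Fintype.equivOfCardEq hcard
  set M : Matrix (J E) (J E) ℂ_[p] := Algebra.embeddingsMatrixReindex ℚ ℂ_[p] b e with hM
  have hdet : M.det ≠ 0 := by
    intro h0
    have h1 := Algebra.discr_eq_det_embeddingsMatrixReindex_pow_two ℚ ℂ_[p] b e
    rw [← hM, h0] at h1
    have h2 := Algebra.discr_not_zero_of_basis ℚ b
    apply h2
    apply (algebraMap ℚ ℂ_[p]).injective
    rw [h1, map_zero]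
    norm_num
  have hMij : ∀ i j, M i j = e j ((om E i : 𝓞 E) : E) := by
    intro i j
    rw [hM]
    change e j (b i) = _
    rw [hb, integralBasis_apply]
  let f : J E ≃ (E →+* ℂ_[p]) := e.trans (RingHom.equivRatAlgHom E ℂ_[p]).symm
  refine ⟨fun σ j => M⁻¹ (f.symm σ) j, ?_⟩
  intro t j
  have h1 : Matrix.vecMul (Matrix.vecMul t M) M⁻¹ = t := by
    rw [Matrix.vecMul_vecMul, Matrix.mul_nonsing_inv M (isUnit_iff_ne_zero.2 hdet),
      Matrix.vecMul_one]
  have h2 := congrFun h1 j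
  have h3 : Matrix.vecMul (Matrix.vecMul t M) M⁻¹ j = ∑ k, (∑ i, t i * M i k) * M⁻¹ k j := rfl
  rw [h3] at h2
  rw [← h2, ← Equiv.sum_comp f]
  refine Finset.sum_congr rfl fun k _ => ?_
  have h4 : f.symm (f k) = k := Equiv.symm_apply_apply f k
  simp only [h4]
  congr 1
  refine Finset.sum_congr rfl fun i _ => ?_
  rw [hMij]
  rfl

/-- the coordinates of the logarithm -/
lemma exists_c {L : ℂ_[p] → ℂ_[p]} (hL : IsIwasawaLog p L) (ε y : 𝓞 E)
    (hy : ε = 1 + ((p : ℕ) : 𝓞 E) ^ 4 * y) : ∃ c : J E → ℚ_[p], ∀ σ : E →+* ℂ_[p],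
      L (σ (ε : E)) = ∑ j, algebraMap ℚ_[p] ℂ_[p] (c j) * σ ((om E j : 𝓞 E) : E) := by
  set x : ℂ_[p] := ((p : ℕ) : ℂ_[p]) ^ 4 with hx
  have hx1 : ‖x‖ < 1 := by
    rw [hx, norm_pow, norm_p]
    exact pow_lt_one₀ (by positivity) (inv_lt_one_of_one_lt₀ (by exact_mod_cast hp.out.one_lt))
      (by norm_num)
  set tm : ℕ → J E → ℚ_[p] := fun n j => (-1 : ℚ_[p]) ^ n * (((om E).repr (y ^ (n + 1)) j : ℤ) : ℚ_[p]) *
    (((p : ℕ) : ℚ_[p]) ^ 4) ^ (n + 1) / ((n : ℚ_[p]) + 1) with htm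
  have htmC : ∀ n j, algebraMap ℚ_[p] ℂ_[p] (tm n j) =
      ((-1 : ℂ_[p]) ^ n * (((om E).repr (y ^ (n + 1)) j : ℤ) : ℂ_[p])) * x ^ (n + 1) /
        ((n : ℂ_[p]) + 1) := by
    intro n j
    rw [htm, hx]
    simp only [map_div₀, map_mul, map_pow, map_neg, map_one, map_intCast, map_natCast, map_add]
  have hsum : ∀ j, Summable (fun n => tm n j) := by
    intro j
    refine Summable.of_norm_bounded (summable_bound hx1) fun n => ?_
    have h1 : ‖tm n j‖ = ‖algebraMap ℚ_[p] ℂ_[p] (tm n j)‖ := (norm_algebraMap' ℂ_[p] _).symm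
    rw [h1, htmC]
    refine bound_term _ ?_ n
    rw [norm_mul, norm_pow, norm_neg, norm_one, one_pow, one_mul]
    exact norm_intCast_le _
  refine ⟨fun j => ∑' n, tm n j, ?_⟩
  intro σ
  have h1 : HasSum (fun n => ∑ j, algebraMap ℚ_[p] ℂ_[p] (tm n j) * σ ((om E j : 𝓞 E) : E))
      (∑ j, algebraMap ℚ_[p] ℂ_[p] (∑' n, tm n j) * σ ((om E j : 𝓞 E) : E)) := by
    refine hasSum_sum fun j _ => ?_
    refine HasSum.mul_right _ ?_
    exact (hsum j).hasSum.map (algebraMap ℚ_[p] ℂ_[p]) (continuous_algebraMap ℚ_[p] ℂ_[p])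
  set z : ℂ_[p] := x * σ (y : E) with hz
  have hz1 : ‖z‖ < 1 := by
    rw [hz, norm_mul]
    have := norm_emb_le σ y
    calc ‖x‖ * ‖σ (y : E)‖ ≤ ‖x‖ * 1 := by gcongr
      _ < 1 := by rw [mul_one]; exact hx1
  have hσ : σ (ε : E) = 1 + z := by
    rw [hy, hz, hx]
    simp only [map_add, map_mul, map_pow, map_natCast, map_one]
  have h2 := hL.ser z hz1
  rw [← hσ] at h2
  have h3 : (fun n : ℕ => (-1 : ℂ_[p]) ^ n * z ^ (n + 1) / ((n : ℂ_[p]) + 1)) =
      (fun n => ∑ j, algebraMap ℚ_[p] ℂ_[p] (tm n j) * σ ((om E j : 𝓞 E) : E)) := by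
    funext n
    have h4 : z ^ (n + 1) = x ^ (n + 1) * ∑ j, (((om E).repr (y ^ (n + 1)) j : ℤ) : ℂ_[p]) *
        σ ((om E j : 𝓞 E) : E) := by
      rw [hz, mul_pow, ← emb_coord σ (y ^ (n + 1))]
      simp only [map_pow]
    rw [h4, Finset.mul_sum, Finset.mul_sum, Finset.sum_div]
    refine Finset.sum_congr rfl fun j _ => ?_
    rw [htmC]
    ring
  rw [h3] at h2
  exact h2.unique h1

end coord

section desc

variable {E : Type} [Field E] [NumberField E]

/-- descent of a relation from `ℂ_p` to `ℤ_p` -/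
lemma descent {L : ℂ_[p] → ℂ_[p]} (hL : IsIwasawaLog p L) {r : ℕ} (ε y : Fin r → 𝓞 E)
    (hy : ∀ i, ε i = 1 + ((p : ℕ) : 𝓞 E) ^ 4 * y i) (a : Fin r → ℂ_[p]) (ha : a ≠ 0)
    (hrel : ∀ σ : E →+* ℂ_[p], ∑ i, a i * L (σ (ε i : E)) = 0) :
    ∃ b : Fin r → PadicInt p, b ≠ 0 ∧ ∀ σ : E →+* ℂ_[p],
      ∑ i, algebraMap ℚ_[p] ℂ_[p] (b i : ℚ_[p]) * L (σ (ε i : E)) = 0 := by
  have hc := fun i => exists_c hL (ε i) (y i) (hy i)
  choose c hc using hc
  obtain ⟨N, hN⟩ := exists_inv (p := p) (E := E)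
  -- the relations between the coordinates
  have h1 : ∀ j, ∑ i, a i * algebraMap ℚ_[p] ℂ_[p] (c i j) = 0 := by
    intro j
    have h2 := hN (fun j => ∑ i, a i * algebraMap ℚ_[p] ℂ_[p] (c i j)) j
    rw [h2]
    refine Finset.sum_eq_zero fun σ _ => ?_
    have h3 : ∑ j, (∑ i, a i * algebraMap ℚ_[p] ℂ_[p] (c i j)) * σ ((om E j : 𝓞 E) : E) = 0 := by
      rw [← hrel σ]
      simp only [Finset.sum_mul]
      rw [Finset.sum_comm]
      refine Finset.sum_congr rfl fun i _ => ?_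
      rw [hc i σ, Finset.mul_sum]
      refine Finset.sum_congr rfl fun j _ => ?_
      rw [mul_assoc]
    rw [h3, zero_mul]
  -- a functional
  obtain ⟨i0, hi0⟩ : ∃ i0, a i0 ≠ 0 := by
    by_contra h
    push Not at h
    exact ha (funext h)
  obtain ⟨f, hf⟩ : ∃ f : Module.Dual ℚ_[p] ℂ_[p], f (a i0) ≠ 0 := by
    by_contra h
    push Not at h
    exact hi0 ((Module.forall_dual_apply_eq_zero_iff ℚ_[p] (a i0)).1 h)
  have h4 : ∀ j, ∑ i, f (a i) * c i j = 0 := by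
    intro j
    have h5 := congrArg f (h1 j)
    rw [map_sum, map_zero] at h5
    rw [← h5]
    refine Finset.sum_congr rfl fun i _ => ?_
    rw [mul_comm (a i), ← Algebra.smul_def, map_smul, smul_eq_mul, mul_comm]
  -- scaling
  have hne : Nonempty (Fin r) := ⟨i0⟩
  obtain ⟨i1, hi1⟩ := Finite.exists_max (fun i => ‖f (a i)‖)
  have hfi1 : f (a i1) ≠ 0 := by
    intro h0
    have h5 := hi1 i0
    rw [h0, norm_zero] at h5
    exact hf (norm_le_zero_iff.1 h5)
  have hle : ∀ i, ‖f (a i) / f (a i1)‖ ≤ 1 := by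
    intro i
    rw [norm_div, div_le_one (norm_pos_iff.2 hfi1)]
    exact hi1 i
  refine ⟨fun i => ⟨f (a i) / f (a i1), hle i⟩, ?_, ?_⟩
  · intro h0
    have h5 := congrArg (fun z : PadicInt p => (z : ℚ_[p])) (congrFun h0 i1)
    change f (a i1) / f (a i1) = 0 at h5
    rw [div_self hfi1] at h5
    exact one_ne_zero h5
  · intro σ
    have h6 : ∀ i, algebraMap ℚ_[p] ℂ_[p] (f (a i) / f (a i1)) * L (σ (ε i : E)) =
        ∑ j, algebraMap ℚ_[p] ℂ_[p] ((f (a i) * c i j) / f (a i1)) * σ ((om E j : 𝓞 E) : E) := by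
      intro i
      rw [hc i σ, Finset.mul_sum]
      refine Finset.sum_congr rfl fun j _ => ?_
      rw [← mul_assoc, ← map_mul]
      congr 2
      ring
    change ∑ i, algebraMap ℚ_[p] ℂ_[p] (f (a i) / f (a i1)) * L (σ (ε i : E)) = 0
    rw [Finset.sum_congr rfl fun i _ => h6 i, Finset.sum_comm]
    refine Finset.sum_eq_zero fun j _ => ?_
    rw [← Finset.sum_mul, ← map_sum, ← Finset.sum_div, h4 j, zero_div, map_zero, zero_mul]

/-- integers close to a `p`-adic integer -/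
lemma exists_seq (x : PadicInt p) : ∃ m : ℕ → ℤ,
    Tendsto (fun k => ((m k : ℤ) : PadicInt p)) atTop (𝓝 x) := by
  have h1 : x ∈ closure (Set.range (Int.cast : ℤ → PadicInt p)) :=
    PadicInt.denseRange_intCast x
  obtain ⟨u, hu, hux⟩ := mem_closure_iff_seq_limit.1 h1
  choose m hm using hu
  refine ⟨m, ?_⟩
  have : (fun k => ((m k : ℤ) : PadicInt p)) = u := funext hm
  rw [this]
  exact hux

/-- the logarithm controls the distance to `1` -/
lemma dist_le {L : ℂ_[p] → ℂ_[p]} (hL : IsIwasawaLog p L) {z : ℂ_[p]} (hz : ‖z‖ ≤ 1 / 8) :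
    ‖z‖ ≤ 2 * ‖L (1 + z)‖ := by
  have h1 := hL.approx hz
  have h2 : ‖z‖ ≤ ‖L (1 + z)‖ + ‖L (1 + z) - z‖ := by
    have h3 : z = L (1 + z) - (L (1 + z) - z) := by ring
    calc ‖z‖ = ‖L (1 + z) - (L (1 + z) - z)‖ := by rw [← h3]
      _ ≤ _ := norm_sub_le _ _
  nlinarith [norm_nonneg z]

/-- `ε = 1` modulo `p ^ 4` -/
def U4 (E : Type) [Field E] [NumberField E] (p : ℕ) : Subgroup (𝓞 E)ˣ :=
  (Units.map (Ideal.Quotient.mk (Ideal.span {((p : ℕ) : 𝓞 E) ^ 4})).toMonoidHom).ker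

lemma mem_U4 (u : (𝓞 E)ˣ) : u ∈ U4 E p ↔ ((p : ℕ) : 𝓞 E) ^ 4 ∣ (u : 𝓞 E) - 1 := by
  unfold U4
  rw [MonoidHom.mem_ker, ← Ideal.mem_span_singleton, ← Ideal.Quotient.eq_zero_iff_mem, map_sub,
    map_one, sub_eq_zero, Units.ext_iff]
  rfl

lemma exists_pow_U4 (E : Type) [Field E] [NumberField E] (p : ℕ) [hp : Fact p.Prime] :
    ∃ n : ℕ, n ≠ 0 ∧ ∀ u : (𝓞 E)ˣ, u ^ n ∈ U4 E p := by
  have hm : ((p : ℕ) : 𝓞 E) ^ 4 ≠ 0 := pow_ne_zero _ (by exact_mod_cast hp.out.ne_zero)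
  have hfin : Finite (𝓞 E ⧸ Ideal.span {((p : ℕ) : 𝓞 E) ^ 4}) :=
    Ideal.finiteQuotientOfFreeOfNeBot _ (by rwa [Ne, Ideal.span_singleton_eq_bot])
  have : Fintype (𝓞 E ⧸ Ideal.span {((p : ℕ) : 𝓞 E) ^ 4})ˣ := Fintype.ofFinite _
  refine ⟨Fintype.card (𝓞 E ⧸ Ideal.span {((p : ℕ) : 𝓞 E) ^ 4})ˣ, Fintype.card_ne_zero, ?_⟩
  intro u
  unfold U4
  rw [MonoidHom.mem_ker, map_pow, pow_card_eq_one]

end desc

end Pool.Agent.Y419.LC.LcpP

namespace Pool.Agent.Y419.LC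

open NumberField Module TensorProduct Pool.Agent.W289.SL Filter Topology LcpP

/-- independence of the logarithms of units congruent to `1` modulo `p ^ 4` -/
theorem indep_of_leopoldt {p : ℕ} [hp : Fact p.Prime] {E : Type} [Field E] [NumberField E]
    (hLeo : Pool.Agent.H637R2.Leo.Leopoldt E p) {L : ℂ_[p] → ℂ_[p]} (hL : IsIwasawaLog p L)
    {r : ℕ} (ε : Fin r → (𝓞 E)ˣ) (hε : ∀ i, ε i ∈ U4 E p)
    (hind : ∀ c : Fin r → ℤ, ∏ i, ε i ^ c i = 1 → c = 0) (a : Fin r → ℂ_[p])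
    (hrel : ∀ σ : E →+* ℂ_[p], ∑ i, a i * L (σ ((ε i : 𝓞 E) : E)) = 0) : a = 0 := by
  by_contra ha
  have hy := fun i => (mem_U4 (ε i)).1 (hε i)
  choose y hy using hy
  obtain ⟨b, hb, hbrel⟩ := descent hL (fun i => (ε i : 𝓞 E)) y
    (fun i => by rw [← hy i]; ring) a ha hrel
  have hm := fun i => exists_seq (b i)
  choose m hm using hm
  apply hb
  refine hLeo r ε ?_ hind b (fun k i => m i k) hm ?_
  · intro i
    apply Ideal.le_radical
    rw [Ideal.mem_span_singleton]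
    exact (dvd_pow_self _ (by norm_num)).trans ((mem_U4 (ε i)).1 (hε i))
  · intro N
    set u : ℕ → (𝓞 E)ˣ := fun k => ∏ i, ε i ^ m i k with hu
    have hu4 : ∀ k, u k ∈ U4 E p := fun k =>
      Subgroup.prod_mem _ fun i _ => Subgroup.zpow_mem _ (hε i) _
    -- the logarithms tend to zero
    have hlog : ∀ σ : E →+* ℂ_[p], Tendsto (fun k => L (σ ((u k : 𝓞 E) : E))) atTop (𝓝 0) := by
      intro σ
      have h1 : ∀ k, L (σ ((u k : 𝓞 E) : E)) = ∑ i, algebraMap ℚ_[p] ℂ_[p]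
          (((m i k : ℤ) : PadicInt p) : ℚ_[p]) * L (σ ((ε i : 𝓞 E) : E)) := by
        intro k
        have h2 : logHom hL σ (Additive.ofMul (u k)) = ∑ i, (m i k) • logHom hL σ
            (Additive.ofMul (ε i)) := by
          rw [hu, ofMul_prod, map_sum]
          refine Finset.sum_congr rfl fun i _ => ?_
          rw [ofMul_zpow, map_zsmul]
        have h3 : L (σ ((u k : 𝓞 E) : E)) = logHom hL σ (Additive.ofMul (u k)) := rfl
        rw [h3, h2]
        refine Finset.sum_congr rfl fun i _ => ?_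
        rw [zsmul_eq_mul]
        congr 1
        simp
      simp only [h1]
      have hj : Continuous (fun x : PadicInt p => algebraMap ℚ_[p] ℂ_[p] (x : ℚ_[p])) :=
        (continuous_algebraMap ℚ_[p] ℂ_[p]).comp continuous_subtype_val
      rw [← hbrel σ]
      refine tendsto_finsetSum _ fun i _ => ?_
      exact ((hj.tendsto (b i)).comp (hm i)).mul_const _
    -- the embeddings tend to 1
    have hemb : ∀ σ : E →+* ℂ_[p], Tendsto (fun k => σ (((u k : 𝓞 E) - 1 : 𝓞 E) : E)) atTop (𝓝 0) := by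
      intro σ
      have h1 : ∀ k, ‖σ (((u k : 𝓞 E) - 1 : 𝓞 E) : E)‖ ≤ 2 * ‖L (σ ((u k : 𝓞 E) : E))‖ := by
        intro k
        obtain ⟨v, hv⟩ := (mem_U4 (u k)).1 (hu4 k)
        have h2 : ‖σ (((u k : 𝓞 E) - 1 : 𝓞 E) : E)‖ ≤ 1 / 8 := by
          rw [hv]
          have h3 : σ ((((p : ℕ) : 𝓞 E) ^ 4 * v : 𝓞 E) : E) = ((p : ℕ) : ℂ_[p]) ^ 4 * σ (v : E) := by
            simp only [map_mul, map_pow, map_natCast]
          rw [h3, norm_mul, norm_pow, norm_p]
          have h4 := norm_emb_le σ v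
          have h5 : ((p : ℝ)⁻¹) ≤ 2⁻¹ := by
            apply inv_anti₀ (by norm_num)
            exact_mod_cast hp.out.two_le
          have h6 : ((p : ℝ)⁻¹) ^ 4 ≤ (2⁻¹) ^ 4 := pow_le_pow_left₀ (by positivity) h5 4
          calc ((p : ℝ)⁻¹) ^ 4 * ‖σ (v : E)‖ ≤ (2⁻¹) ^ 4 * 1 := by gcongr
            _ ≤ 1 / 8 := by norm_num
        have h3 := dist_le hL h2
        have h4 : 1 + σ (((u k : 𝓞 E) - 1 : 𝓞 E) : E) = σ ((u k : 𝓞 E) : E) := by
          have h5 : σ (((u k : 𝓞 E) - 1 : 𝓞 E) : E) = σ ((u k : 𝓞 E) : E) - 1 := by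
            simp only [map_sub, map_one]
          rw [h5]
          ring
        rw [h4] at h3
        exact h3
      refine squeeze_zero_norm h1 ?_
      have h2 := ((hlog σ).norm).const_mul 2
      rw [norm_zero, mul_zero] at h2
      exact h2
    -- the coordinates tend to zero
    obtain ⟨M, hM⟩ := exists_inv (p := p) (E := E)
    have hco : ∀ j, Tendsto (fun k => (((om E).repr ((u k : 𝓞 E) - 1) j : ℤ) : ℂ_[p])) atTop
        (𝓝 0) := by
      intro j
      have h1 : ∀ k, (((om E).repr ((u k : 𝓞 E) - 1) j : ℤ) : ℂ_[p]) =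
          ∑ σ : E →+* ℂ_[p], σ (((u k : 𝓞 E) - 1 : 𝓞 E) : E) * M σ j := by
        intro k
        rw [hM (fun j => (((om E).repr ((u k : 𝓞 E) - 1) j : ℤ) : ℂ_[p])) j]
        refine Finset.sum_congr rfl fun σ _ => ?_
        rw [emb_coord σ ((u k : 𝓞 E) - 1)]
      simp only [h1]
      have h2 : (0 : ℂ_[p]) = ∑ σ : E →+* ℂ_[p], 0 * M σ j := by simp
      rw [h2]
      exact tendsto_finsetSum _ fun σ _ => (hemb σ).mul_const _
    have hp0 : (0 : ℝ) < (p : ℝ) ^ (-N : ℤ) := by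
      have := hp.out.pos
      positivity
    have hev : ∀ᶠ k in atTop, ∀ j, ‖(((om E).repr ((u k : 𝓞 E) - 1) j : ℤ) : ℂ_[p])‖ ≤
        (p : ℝ) ^ (-N : ℤ) := by
      rw [Filter.eventually_all]
      intro j
      have h1 := (hco j).norm
      rw [norm_zero] at h1
      exact (h1.eventually (gt_mem_nhds hp0)).mono fun k hk => le_of_lt hk
    filter_upwards [hev] with k hk
    change ((p : ℕ) : 𝓞 E) ^ N ∣ (u k : 𝓞 E) - 1
    rw [← (om E).sum_repr ((u k : 𝓞 E) - 1)]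
    refine Finset.dvd_sum fun j _ => ?_
    have h1 := hk j
    have h2 : ‖(((om E).repr ((u k : 𝓞 E) - 1) j : ℤ) : ℂ_[p])‖ =
        ‖(((om E).repr ((u k : 𝓞 E) - 1) j : ℤ) : ℚ_[p])‖ := by
      have h := norm_algebraMap' ℂ_[p] (((om E).repr ((u k : 𝓞 E) - 1) j : ℤ) : ℚ_[p])
      rw [map_intCast] at h
      exact h
    rw [h2, Padic.norm_int_le_pow_iff_dvd] at h1
    obtain ⟨q, hq⟩ := h1
    rw [hq, zsmul_eq_mul]
    push_cast
    rw [mul_assoc]
    exact dvd_mul_right _ _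

theorem lcp : Pool.Agent.Y18.LC.LCP := by
  intro p _ E _ _ hLeo L hL x hx
  obtain ⟨n, hn, hnU⟩ := exists_pow_U4 E p
  have hn' : (n : ℂ_[p]) ≠ 0 := by exact_mod_cast hn
  set ε : Fin (Units.rank E) → (𝓞 E)ˣ := fun i => (Units.fundSystem E i) ^ n with hε
  -- every element is a combination
  have hspan : ∀ x : UM p E, ∃ a : Fin (Units.rank E) → ℂ_[p],
      x = ∑ i, a i ⊗ₜ[ℤ] Additive.ofMul (ε i) := by
    intro x
    induction x using TensorProduct.induction_on with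
    | zero => exact ⟨0, by simp⟩
    | add x y hx hy =>
      obtain ⟨a, ha⟩ := hx
      obtain ⟨b, hb⟩ := hy
      refine ⟨a + b, ?_⟩
      rw [ha, hb, ← Finset.sum_add_distrib]
      refine Finset.sum_congr rfl fun i _ => ?_
      rw [Pi.add_apply, TensorProduct.add_tmul]
    | tmul c u =>
      obtain ⟨⟨ζ, e⟩, h, -⟩ := Units.exist_unique_eq_mul_prod E (Additive.toMul u)
      simp only at h
      refine ⟨fun i => c * (e i : ℂ_[p]) / n, ?_⟩
      have h1 : u = Additive.ofMul (ζ : (𝓞 E)ˣ) +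
          ∑ i, e i • Additive.ofMul (Units.fundSystem E i) := by
        have h2 : u = Additive.ofMul (Additive.toMul u) := rfl
        rw [h2, h, ofMul_mul, ofMul_prod]
        rfl
      obtain ⟨k, hk, hk1⟩ := isOfFinOrder_iff_pow_eq_one.1 (show IsOfFinOrder (ζ : (𝓞 E)ˣ) from ζ.2)
      rw [h1, TensorProduct.tmul_add, tmul_torsion c (Additive.ofMul (ζ : (𝓞 E)ˣ)) k hk.ne'
        (by rw [← ofMul_pow, hk1, ofMul_one]), zero_add, TensorProduct.tmul_sum]
      refine Finset.sum_congr rfl fun i _ => ?_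
      have h3 : Additive.ofMul (ε i) = (n : ℤ) • Additive.ofMul (Units.fundSystem E i) := by
        rw [natCast_zsmul]
        rfl
      rw [h3, tmul_zsmul, tmul_zsmul]
      congr 1
      push_cast
      field_simp
  obtain ⟨a, rfl⟩ := hspan x
  have ha : a = 0 := by
    refine indep_of_leopoldt hLeo hL ε (fun i => hnU _) ?_ a ?_
    · intro c hc
      have h1 := (Units.exist_unique_eq_mul_prod E 1).unique
        (y₁ := (1, fun i => (n : ℤ) * c i)) (y₂ := (1, 0)) ?_ ?_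
      · have h2 := (Prod.mk.inj h1).2
        funext i
        have h3 := congrFun h2 i
        simp only [Pi.zero_apply, mul_eq_zero] at h3
        rcases h3 with h3 | h3
        · exact absurd h3 (by exact_mod_cast hn)
        · exact h3
      · simp only
        rw [← hc]
        have h2 : ∀ i, ε i ^ c i = Units.fundSystem E i ^ ((n : ℤ) * c i) := by
          intro i
          rw [hε, zpow_mul, zpow_natCast]
        rw [Finset.prod_congr rfl fun i _ => h2 i]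
        simp
      · simp
    · intro σ
      have h1 := hx σ
      rw [map_sum] at h1
      exact h1
  rw [ha]
  simp

end Pool.Agent.Y419.LC
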