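import Mathlib
import Pool.Agent.Y18.LC.Stm4
import Pool.Agent.W289.SL.Crit

/-!
# Project LC (helper18), job LC-SIG: from a totally real field to the characters of a CM field
-/

set_option autoImplicit false
set_option linter.unusedSectionVars false

namespace Pool.Agent.Y419.LC.SigP

open NumberField Module TensorProduct Pool.Agent.W289.SL

variable {p : ℕ} [Fact p.Prime]

/-- torsion dies in `ℂ_p ⊗ -` -/
lemma tmul_torsion {H : Type} [Field H] [NumberField H] (a : ℂ_[p]) (t : Additive (𝓞 H)ˣ) (n : ℕ)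
    (hn : n ≠ 0) (ht : n • t = 0) : (a ⊗ₜ[ℤ] t : UM p H) = 0 := by
  have hn' : (n : ℂ_[p]) ≠ 0 := by exact_mod_cast hn
  have h1 : (a ⊗ₜ[ℤ] t : UM p H) = (n • (a / n)) ⊗ₜ[ℤ] t := by
    congr 1
    rw [nsmul_eq_mul]
    field_simp
  rw [h1, TensorProduct.smul_tmul, ht, TensorProduct.tmul_zero]

section act

variable {H : Type} [Field H] [NumberField H]

lemma logLin_act {L : ℂ_[p] → ℂ_[p]} (hL : IsIwasawaLog p L) (σ : H →+* ℂ_[p]) (f : H →+* H)
    (x : UM p H) : logLin hL σ (actLin p f x) = logLin hL (σ.comp f) x := by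
  induction x using TensorProduct.induction_on with
  | zero => simp
  | add z1 z2 h1 h2 => rw [map_add, map_add, map_add, h1, h2]
  | tmul c u =>
    rw [actLin_tmul, logLin_tmul, logLin_tmul]
    rfl

end act

section inc

variable {E H : Type} [Field E] [NumberField E] [Field H] [NumberField H] [Algebra E H]

/-- the `ℂ_p`-linear extension of `unitInc` -/
noncomputable def incLin (p : ℕ) [Fact p.Prime] (E H : Type) [Field E] [NumberField E] [Field H]
    [NumberField H] [Algebra E H] : UM p E →ₗ[ℂ_[p]] UM p H :=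
  (unitInc E H).toIntLinearMap.baseChange ℂ_[p]

lemma incLin_tmul (c : ℂ_[p]) (u : Additive (𝓞 E)ˣ) :
    incLin p E H (c ⊗ₜ u) = c ⊗ₜ unitInc E H u := rfl

lemma logLin_inc {L : ℂ_[p] → ℂ_[p]} (hL : IsIwasawaLog p L) (σ : H →+* ℂ_[p])
    (x : UM p E) : logLin hL σ (incLin p E H x) = logLin hL (σ.comp (algebraMap E H)) x := by
  induction x using TensorProduct.induction_on with
  | zero => simp
  | add z1 z2 h1 h2 => rw [map_add, map_add, map_add, h1, h2]
  | tmul c u =>
    rw [incLin_tmul, logLin_tmul, logLin_tmul]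
    rfl

lemma exists_ext (σ : E →+* ℂ_[p]) : ∃ τ : H →+* ℂ_[p], τ.comp (algebraMap E H) = σ := by
  letI := σ.toAlgebra
  have : Algebra.IsAlgebraic E H := by
    have : IsScalarTower ℚ E H := IsScalarTower.of_algebraMap_eq' (Subsingleton.elim _ _)
    exact Algebra.IsAlgebraic.tower_top (K := ℚ) E
  refine ⟨(IsAlgClosed.lift (R := E) (S := H) (M := ℂ_[p])).toRingHom, ?_⟩
  ext x
  exact (IsAlgClosed.lift (R := E) (S := H) (M := ℂ_[p])).commutes x

end inc

section cm

variable {H : Type} [Field H] [NumberField H] [IsCMField H]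

/-- complex conjugation as a ring endomorphism -/
noncomputable def cc (H : Type) [Field H] [NumberField H] [IsCMField H] : H →+* H :=
  ((IsCMField.complexConj H : H ≃ₐ[maximalRealSubfield H] H) : H →+* H)

lemma cc_apply (x : H) : cc H x = IsCMField.complexConj H x := rfl

lemma unit_diff (u : Additive (𝓞 H)ˣ) : ∃ n : ℕ, n ≠ 0 ∧ n • (u - unitHom (cc H) u) = 0 := by
  set ζ : Units.torsion H := IsCMField.unitsMulComplexConjInv H (Additive.toMul u) with hζ
  have h1 : (ζ : (𝓞 H)ˣ) = Additive.toMul (u - unitHom (cc H) u) := by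
    rw [hζ, IsCMField.unitsMulComplexConjInv_apply]
    rfl
  have h2 : IsOfFinOrder (ζ : (𝓞 H)ˣ) := ζ.2
  obtain ⟨n, hn, hn2⟩ := isOfFinOrder_iff_pow_eq_one.1 h2
  refine ⟨n, hn.ne', ?_⟩
  apply Additive.toMul.injective
  rw [toMul_nsmul, ← h1, hn2]
  rfl

lemma act_cc (x : UM p H) : actLin p (cc H) x = x := by
  induction x using TensorProduct.induction_on with
  | zero => simp
  | add z1 z2 h1 h2 => rw [map_add, h1, h2]
  | tmul c u =>
    rw [actLin_tmul]
    obtain ⟨n, hn, h⟩ := unit_diff u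
    have h2 := tmul_torsion (p := p) c _ n hn h
    rw [TensorProduct.tmul_sub, sub_eq_zero] at h2
    exact h2.symm

end cm

section main

variable {E H : Type} [Field E] [NumberField E] [IsTotallyReal E] [Field H] [NumberField H]
  [IsTotallyComplex H] [Algebra E H] [Algebra.IsQuadraticExtension E H]

lemma fixed_mem [IsCMField H] (u : (𝓞 H)ˣ) (hu : IsCMField.complexConj H (u : 𝓞 H) = (u : 𝓞 H)) :
    ∃ v : Additive (𝓞 E)ˣ, unitInc E H v = Additive.ofMul u := by
  have h1 : ((u : 𝓞 H) : H) ∈ maximalRealSubfield H := (IsCMField.complexConj_eq_self_iff H _).1 hu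
  have key : ∀ w : (𝓞 H)ˣ, ((w : 𝓞 H) : H) ∈ maximalRealSubfield H →
      ∃ y : 𝓞 E, algebraMap E H y = ((w : 𝓞 H) : H) := by
    intro w hw
    set e : E := (CMExtension.equivMaximalRealSubfield E H).symm ⟨_, hw⟩ with he
    have h2 : algebraMap E H e = ((w : 𝓞 H) : H) := by
      rw [he, CMExtension.algebraMap_equivMaximalRealSubfield_symm_apply]
      rfl
    have h3 : IsIntegral ℤ e := by
      rw [← isIntegral_algebraMap_iff (algebraMap E H).injective, h2]
      exact RingOfIntegers.isIntegral_coe _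
    exact ⟨⟨e, h3⟩, h2⟩
  obtain ⟨y, hy⟩ := key u h1
  have h1' : (((u⁻¹ : (𝓞 H)ˣ) : 𝓞 H) : H) ∈ maximalRealSubfield H := by
    have h4 : (((u⁻¹ : (𝓞 H)ˣ) : 𝓞 H) : H) = ((u : 𝓞 H) : H)⁻¹ := by
      refine eq_inv_of_mul_eq_one_left ?_
      rw [← map_mul, ← Units.val_mul, inv_mul_cancel, Units.val_one, map_one]
    rw [h4]
    exact inv_mem h1
  obtain ⟨z, hz⟩ := key u⁻¹ h1'
  have hyz : y * z = 1 := by
    apply RingOfIntegers.ext
    apply (algebraMap E H).injective
    have h5 : algebraMap E H ((y * z : 𝓞 E) : E) = algebraMap E H y * algebraMap E H z := by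
      rw [← map_mul]
      rfl
    rw [h5, hy, hz, ← map_mul, ← Units.val_mul, mul_inv_cancel, Units.val_one, map_one]
    simp
  refine ⟨Additive.ofMul ⟨y, z, hyz, by rw [mul_comm]; exact hyz⟩, ?_⟩
  apply Additive.toMul.injective
  apply Units.ext
  apply RingOfIntegers.ext
  rw [unitInc_apply]
  exact hy

lemma inc_surj [IsCMField H] (x : UM p H) : ∃ y : UM p E, incLin p E H y = x := by
  induction x using TensorProduct.induction_on with
  | zero => exact ⟨0, map_zero _⟩
  | add z1 z2 h1 h2 =>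
    obtain ⟨y1, hy1⟩ := h1
    obtain ⟨y2, hy2⟩ := h2
    exact ⟨y1 + y2, by rw [map_add, hy1, hy2]⟩
  | tmul c u =>
    obtain ⟨v, hv⟩ := fixed_mem (E := E) (Additive.toMul (u + unitHom (cc H) u)) (by
      have h1 : (((Additive.toMul (u + unitHom (cc H) u) : (𝓞 H)ˣ) : 𝓞 H) : H) =
          ((Additive.toMul u : (𝓞 H)ˣ) : 𝓞 H) *
          IsCMField.complexConj H ((Additive.toMul u : (𝓞 H)ˣ) : 𝓞 H) := rfl
      rw [h1, map_mul, IsCMField.complexConj_apply_apply, mul_comm])
    refine ⟨(c / 2) ⊗ₜ v, ?_⟩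
    rw [incLin_tmul, hv]
    change (c / 2) ⊗ₜ[ℤ] (u + unitHom (cc H) u) = _
    obtain ⟨n, hn, h⟩ := unit_diff u
    have h2 := tmul_torsion (p := p) (c / 2) _ n hn h
    have h3 : (c ⊗ₜ[ℤ] u : UM p H) = (c / 2) ⊗ₜ[ℤ] u + (c / 2) ⊗ₜ[ℤ] u := by
      rw [← TensorProduct.add_tmul, add_halves]
    rw [TensorProduct.tmul_sub, sub_eq_zero] at h2
    rw [TensorProduct.tmul_add, ← h2, h3]

end main

end Pool.Agent.Y419.LC.SigP

namespace Pool.Agent.Y419.LC

open NumberField Module TensorProduct Pool.Agent.W289.SL SigP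

theorem sig : Pool.Agent.Y18.LC.SIG := by
  intro p _ F K E H _ _ _ _ _ _ _ _ _ _ _ _ hE hK hFK hEH hcomm hinj S hS χ
  have : IsTotallyComplex H := isTotallyComplex_of_algebra K H
  have : Algebra.IsQuadraticExtension E H := ⟨hEH⟩
  have : Algebra.IsQuadraticExtension F K := ⟨hFK⟩
  have : IsCMField H := IsCMField.ofCMExtension E H
  letI : Algebra F H := ((algebraMap K H).comp (algebraMap F K)).toAlgebra
  have : IsScalarTower F K H := IsScalarTower.of_algebraMap_eq (fun x => rfl)
  -- the conjugation over F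
  let cF : H ≃ₐ[F] H := AlgEquiv.ofRingEquiv (f := (IsCMField.complexConj H).toRingEquiv) (by
    intro x
    have h1 : algebraMap F H x = algebraMap E H (algebraMap F E x) := hcomm x
    rw [h1]
    have h2 : algebraMap E H (algebraMap F E x) ∈ maximalRealSubfield H :=
      (CMExtension.equivMaximalRealSubfield E H (algebraMap F E x)).2
    exact (IsCMField.complexConj_eq_self_iff H _).2 h2)
  let cK : K ≃ₐ[F] K := cF.restrictNormal K
  have hcK : ∀ x : K, algebraMap K H (cK x) = cc H (algebraMap K H x) := by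
    intro x
    exact AlgEquiv.restrictNormal_commutes cF K x
  have hne : cK ≠ 1 := by
    intro h
    obtain ⟨φ⟩ : Nonempty (H →+* ℂ) := inferInstance
    have h1 : ComplexEmbedding.IsReal (φ.comp (algebraMap K H)) := by
      rw [ComplexEmbedding.isReal_iff]
      ext x
      rw [ComplexEmbedding.conjugate_coe_eq]
      have h2 := hcK x
      rw [h] at h2
      change starRingEnd ℂ (φ (algebraMap K H x)) = φ (algebraMap K H x)
      rw [← IsCMField.complexEmbedding_complexConj H φ, ← cc_apply, ← h2]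
      rfl
    exact IsTotallyComplex.complexEmbedding_not_isReal _ h1
  intro L hL x hx hlog
  have h1 : ∀ σ : H →+* ℂ_[p], logLin hL σ x = 0 := by
    intro σ
    by_cases h : σ.comp (algebraMap K H) ∈ S
    · exact hlog σ h
    · have h2 : (σ.comp (cc H)).comp (algebraMap K H) ∈ S := by
        have h3 := hS cK hne (σ.comp (algebraMap K H))
        have h4 : (σ.comp (algebraMap K H)).comp (cK : K →+* K) =
            (σ.comp (cc H)).comp (algebraMap K H) := by
          ext y
          change σ (algebraMap K H (cK y)) = σ (cc H (algebraMap K H y))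
          rw [hcK]
        rw [h4] at h3
        by_contra h5
        exact h (h3.2 h5)
      have h3 := hlog _ h2
      rw [← logLin_act, act_cc] at h3
      exact h3
  obtain ⟨y, rfl⟩ := inc_surj (E := E) x
  have h2 : y = 0 := by
    apply hinj L hL
    intro σ
    obtain ⟨τ, hτ⟩ := exists_ext (H := H) σ
    rw [← hτ, ← logLin_inc]
    exact h1 τ
  rw [h2, map_zero]

end Pool.Agent.Y419.LC
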